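import Mathlib
import Pool.Agent.T9h23.Un.G6

set_option autoImplicit false

/-!
# The quantitative Hypothesis H for all systems `f(g_1(X)), …, f(g_j(X))` at the same time, for almost every `f`

Let `f = P + a_0 + a_1 X + ⋯ + a_d X ^ d`, where `P` is a fixed polynomial and the `a_i` are independent and uniform in
`[-H, H]`. For one fixed set `G` of inner polynomials, the formula of the quantitative Hypothesis H for the system
`{f ∘ g : g ∈ G}` holds for almost all `f`; the exceptional `f` depend on `G`. Here it is shown that, when the degree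
`d` is larger than `k (k D A / ε + 1)`, all but a proportion `(log H) ^ (-c)` of the `f` satisfy the formula for ALL the
sets `G` of at most `k` monic polynomials of degree at most `D` with coefficients up to `(log H) ^ A` at the same time,
and for all `x` between `(log H) ^ (|G| + ε)` and `(log H) ^ B`, `B` arbitrary. With `g = X + m` this contains all short
intervals: for almost every `f` of degree `> A / ε + 1`, every interval `(m, m + x]` with `|m| ≤ (log H) ^ A` and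
`x ≥ (log H) ^ (1 + ε)` contains `∼ C_f x / log H` integers `n` such that `|f(n)|` is a prime; and the same for all
tuples of shifts `f(n + h_1), …, f(n + h_k)`.

Proof (`Pool/Agent/T9h23`): for one `G` the probability of an exception must be smaller than `(log H) ^ (-k D A)`. The
sum over `n` of `∏ Λ(f(g(n))) - ∏ Λ_z(f(g(n)))`, `z` a large power of `log H`, is split by a coloring into boundedly many
sums over disjoint systems of points, and for these the moment of order `2 ⌊d / k⌋` is computed: the values of `f` at up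
to `2 d` points are correlated like the values of the sieve model `Λ_z` (bilinear sums, Vinogradov's estimate and the
theorem of Siegel and Walfisz). The passage from `Λ_z` to a small level `y = (log H) ^ δ` would be too expensive with
these moments; for it the constant term alone is random, and exponential moments over the independent residues of the
constant term modulo the primes between `y` and `z` give an arbitrary power of `log H`.
-/

namespace Pool.Agent.Results.MP_51e72e_nt.AllSystems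

open Finset Polynomial

/-- The polynomial `P + a 0 + a 1 X + ⋯ + a d X ^ d`. -/
noncomputable def poly {d : ℕ} (P : ℤ[X]) (a : Fin (d + 1) → ℤ) : ℤ[X] := P + ∑ i, C (a i) * X ^ (i : ℕ)

/-- `π_F(x)` for the system `F` of the polynomials `f ∘ g` (`g ∈ G`): the number of the `1 ≤ n ≤ x` such that the
absolute values of all of them at `n` are primes. -/
noncomputable def count (f : ℤ[X]) (G : Finset ℤ[X]) (x : ℕ) : ℕ :=
  {n : ℕ | 1 ≤ n ∧ n ≤ x ∧ ∀ g ∈ G, ((f.comp g).eval (n : ℤ)).natAbs.Prime}.ncard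

/-- `ω_F(p)`: the number of the residue classes `n` modulo `p` for which `p` divides the product of all the values at `n`. -/
noncomputable def omega (f : ℤ[X]) (G : Finset ℤ[X]) (p : ℕ) : ℕ :=
  {n : ℕ | n < p ∧ (p : ℤ) ∣ ∏ g ∈ G, (f.comp g).eval (n : ℤ)}.ncard

/-- The Euler product `C_F`, over the primes up to `z`. -/
noncomputable def constant (f : ℤ[X]) (G : Finset ℤ[X]) (z : ℕ) : ℝ :=
  ∏ p ∈ (Icc 1 z).filter Nat.Prime, (1 - (omega f G p : ℝ) / p) / (1 - 1 / (p : ℝ)) ^ G.card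

/-- `x / ∏ log |f(g(x))|`, the product over the polynomials of the system. -/
noncomputable def scale (f : ℤ[X]) (G : Finset ℤ[X]) (x : ℕ) : ℝ :=
  x / ∏ g ∈ G, Real.log |(((f.comp g).eval (x : ℤ) : ℤ) : ℝ)|

/-- The formula of the quantitative Hypothesis H with relative error `ρ`, for all `(log H) ^ (|G| + ε) ≤ x ≤ (log H) ^ B`,
the product `C_F` being taken over the primes up to any `z` with `(log H) ^ ε ≤ z ≤ (log H) ^ B`. -/
def Good (H B : ℕ) (ε ρ : ℝ) (f : ℤ[X]) (G : Finset ℤ[X]) : Prop :=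
  ∀ x z : ℕ, Real.log H ^ ((G.card : ℝ) + ε) ≤ x → (x : ℝ) ≤ Real.log H ^ B → Real.log H ^ ε ≤ z → (z : ℝ) ≤ Real.log H ^ B →
    |(count f G x : ℝ) - constant f G z * scale f G x| ≤ ρ * (constant f G z * scale f G x)

open Pool.Agent.T9h23.Cor Pool.Agent.T9h23.BH Pool.Agent.T9h23.Un Pool.Agent.H373R2.T7

lemma count_eq {d : ℕ} (P : ℤ[X]) (G : Finset ℤ[X]) (a : Fin (d + 1) → ℤ) (x : ℕ) :
    count (poly P a) G x = pc (dd := fun _ : Fin 1 => d) (fun _ => G) (fun _ => P) (fun _ => a) x := by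
  classical
  unfold count pc
  rw [← Set.ncard_coe_finset]
  congr 1
  ext n
  simp only [Set.mem_ofPred_eq, coe_filter, mem_Icc, and_assoc]
  constructor
  · rintro ⟨h1, h2, h3⟩
    exact ⟨h1, h2, fun _ => h3⟩
  · rintro ⟨h1, h2, h3⟩
    exact ⟨h1, h2, h3 0⟩

lemma omega_eq {d : ℕ} (P : ℤ[X]) (G : Finset ℤ[X]) (a : Fin (d + 1) → ℤ) (p : ℕ) :
    omega (poly P a) G p = om (qq (dd := fun _ : Fin 1 => d) (fun _ => G) (fun _ => P) (fun _ => a)) p := by
  classical
  unfold omega om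
  rw [← Set.ncard_coe_finset]
  congr 1
  ext n
  simp only [Set.mem_ofPred_eq, coe_filter, mem_range]
  unfold qq
  rw [Fin.prod_univ_one, eval_prod]
  rfl

lemma constant_eq {d : ℕ} (P : ℤ[X]) (G : Finset ℤ[X]) (a : Fin (d + 1) → ℤ) (z : ℕ) :
    constant (poly P a) G z =
      Pool.Agent.T9h23.BH.CC (qq (dd := fun _ : Fin 1 => d) (fun _ => G) (fun _ => P) (fun _ => a)) G.card z := by
  unfold constant Pool.Agent.T9h23.BH.CC Dn Vz
  rw [← prod_inv_distrib, ← prod_pow, ← prod_mul_distrib]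
  unfold pz
  refine prod_congr rfl fun p _ => ?_
  rw [omega_eq, div_eq_mul_inv, inv_pow]

/-- Let `k ≥ 1`, `D`, `A` and `ε > 0`, and let `d > k (k D A / ε + 1)`. For all `D'` and `ρ > 0` there is `c > 0` such
that for every `B`, every large `H` and every polynomial `P` of degree at most `D'` with coefficients at most
`H (log H) ^ B`: the number of the integers `a_i` (`0 ≤ i ≤ d`), `|a_i| ≤ H`, for which the formula fails for
`f = P + ∑ a_i X ^ i` and for at least one set `G` of at most `k` monic polynomials with degrees between `1` and `D` and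
coefficients at most `(log H) ^ A`, is at most `(2 H + 1) ^ (d + 1) / (log H) ^ c`. -/
theorem result (k D A d D' : ℕ) (ε ρ : ℝ) (hk : 1 ≤ k) (hε : 0 < ε) (hρ : 0 < ρ) (hd : (k : ℝ) * (k * D * A / ε + 1) < d) :
    ∃ c : ℝ, 0 < c ∧ ∀ B : ℕ, ∃ H₀ : ℕ, ∀ H : ℕ, H₀ ≤ H → ∀ P : ℤ[X], P.natDegree ≤ D' →
    (∀ i, |(P.coeff i : ℝ)| ≤ H * Real.log H ^ B) →
    ({a : Fin (d + 1) → ℤ | (∀ i, |a i| ≤ H) ∧ ¬ ∀ G : Finset ℤ[X], G.card ≤ k →
      (∀ g ∈ G, g.Monic ∧ 1 ≤ g.natDegree ∧ g.natDegree ≤ D ∧ ∀ i, |(g.coeff i : ℝ)| ≤ Real.log H ^ A) →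
      Good H B ε ρ (poly P a) G}.ncard : ℝ) ≤ (2 * (H : ℝ) + 1) ^ (d + 1) / Real.log H ^ c := by
  classical
  obtain ⟨ρ1, hρ1⟩ : ∃ ρ1, ρ1 = min (ρ / 4) (1 / 4) := ⟨_, rfl⟩
  have hρ10 : 0 < ρ1 := by rw [hρ1]; positivity
  have hρ1a : ρ1 ≤ 1 / 4 := by rw [hρ1]; exact min_le_right _ _
  have hρ1b : 4 * ρ1 ≤ ρ := by
    have : ρ1 ≤ ρ / 4 := by rw [hρ1]; exact min_le_left _ _
    linarith
  obtain ⟨c, hc, hfin⟩ := finU k d D D' A ε ρ1 hk hε hρ10 hd
  refine ⟨c, hc, fun B => ?_⟩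
  obtain ⟨H0, h0⟩ := hfin B
  obtain ⟨n1, h1⟩ := ev_L' 1
  refine ⟨max H0 n1, fun H hH P hP1 hP2 => ?_⟩
  have hL1 := h1 H ((le_max_right _ _).trans hH)
  have hL0 : 0 < Real.log H := by linarith
  have hmain := h0 H ((le_max_left _ _).trans hH) P hP1 hP2
  refine le_trans (Nat.cast_le.2 ?_) hmain
  rw [← Set.ncard_coe_finset]
  apply Set.ncard_le_ncard _ (finite_toSet _)
  rintro a ⟨ha1, ha2⟩
  rw [mem_coe, mem_filter]
  refine ⟨mem_Box.2 ha1, fun hC => ha2 fun G hG1 hG2 => ?_⟩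
  have hC' := hC G hG1 ⟨fun g hg => (hG2 g hg).1, fun g hg => ⟨(hG2 g hg).2.1, (hG2 g hg).2.2.1⟩, fun g hg => (hG2 g hg).2.2.2⟩
  intro x z hx1 hx2 hz1 hz2
  obtain ⟨h2, h3⟩ := hC' x (by rw [kk_one]; exact hx1) hx2 z hz1 hz2
  rw [kk_one] at h2 h3
  rw [count_eq, constant_eq]
  unfold scale
  obtain ⟨Q, hQ⟩ : ∃ Q : ℝ, Q = ∏ g ∈ G, Real.log |((((hpol P a).comp g).eval (x : ℤ) : ℤ) : ℝ)| := ⟨_, rfl⟩
  have hQ' : ∏ g ∈ G, Real.log |((((poly P a).comp g).eval (x : ℤ) : ℤ) : ℝ)| = Q := hQ.symm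
  rw [Fin.prod_univ_one, ← hQ] at h3
  rw [hQ']
  have hx : (0 : ℝ) < x := lt_of_lt_of_le (by positivity) hx1
  obtain ⟨K, hK⟩ : ∃ K : ℝ, K = Real.log H ^ G.card := ⟨_, rfl⟩
  have hK0 : 0 < K := by rw [hK]; positivity
  rw [← hK] at h2 h3
  have hC0 := CC_nonneg (qq (dd := fun _ : Fin 1 => d) (fun _ => G) (fun _ => P) (fun _ => a)) G.card z
  obtain ⟨W, hW⟩ : ∃ W : ℝ, W = Pool.Agent.T9h23.BH.CC (qq (dd := fun _ : Fin 1 => d) (fun _ => G) (fun _ => P) (fun _ => a)) G.card z := ⟨_, rfl⟩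
  rw [← hW] at h2 hC0 ⊢
  rw [abs_le] at h3
  have hQ0 : 0 < Q := by nlinarith
  -- `x / K` and `x / Q`
  obtain ⟨u, hu⟩ : ∃ u : ℝ, u = x / Q := ⟨_, rfl⟩
  have hu0 : 0 < u := by rw [hu]; positivity
  have hxu : (x : ℝ) / K = u * (Q / K) := by rw [hu]; field_simp
  have hq1 : Q / K ≤ 1 + ρ1 := by rw [div_le_iff₀ hK0]; linarith [h3.2]
  have hq2 : 1 - ρ1 ≤ Q / K := by rw [le_div_iff₀ hK0]; linarith [h3.1]
  rw [← hu]
  obtain ⟨v, hv⟩ : ∃ v : ℝ, v = x / K := ⟨_, rfl⟩
  rw [← hv] at h2 hxu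
  have hv1 : v ≤ (1 + ρ1) * u := by rw [hxu]; nlinarith
  have hv2 : (1 - ρ1) * u ≤ v := by rw [hxu]; nlinarith
  have hWv1 : W * v ≤ (1 + ρ1) * (W * u) := by
    calc W * v ≤ W * ((1 + ρ1) * u) := by gcongr
      _ = _ := by ring
  have hWv2 : (1 - ρ1) * (W * u) ≤ W * v := by
    calc (1 - ρ1) * (W * u) = W * ((1 - ρ1) * u) := by ring
      _ ≤ _ := by gcongr
  have hWu : 0 ≤ W * u := by positivity
  have h5 : ρ1 * (W * v) ≤ ρ1 * ((1 + ρ1) * (W * u)) := by gcongr
  have h6 : ρ1 * (ρ1 * (W * u)) ≤ 1 / 4 * (ρ1 * (W * u)) := by gcongr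
  have h7 : 0 ≤ ρ1 * (W * u) := by positivity
  have h8 : 4 * ρ1 * (W * u) ≤ ρ * (W * u) := by gcongr
  rw [abs_le] at h2 ⊢
  constructor <;> nlinarith [h2.1, h2.2]

end Pool.Agent.Results.MP_51e72e_nt.AllSystems
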