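import Mathlib
import Pool.Agent.T9h23.BH.A6

set_option autoImplicit false

/-!
# The quantitative Hypothesis H for almost all systems `f_j(g(X))`, in the optimal range

Let `f_1, …, f_r` be random polynomials, `f_j = P_j + a_{j,0} + a_{j,1} X + ⋯ + a_{j,d_j} X ^ d_j`, where the `P_j` are
fixed polynomials and the `a_{j,i}` are independent and uniform in `[-H, H]`, and for each `j` let `G_j` be a set of at
most `d_j` nonconstant integer polynomials (for instance `X, X + 2, X + 6, …, X ^ 2, …`). The asymptotic formula of the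
quantitative Hypothesis H holds for the system `F` of all the `k` polynomials `f_j ∘ g`, `g ∈ G_j`, for all
`x₀ ≤ x ≤ (log H) ^ A`, for all but a proportion `x₀ ^ (-c)` of the `(f_1, …, f_r)`, where
`x₀ ≥ (log H) ^ (k + ε)` is arbitrary. (The expected number of the `n ≤ x` is about `x / (log H) ^ k`.)

Proof (`Pool/Agent/T9h23`): second moments over the `f_j`. The values of `f_j` at up to `2 d_j + 1` points are
controlled by shifting `f_j` by `a ∏ (X - s) + b ∏ (X - t)` with two disjoint sets of at most `d_j` of the points: the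
value at the last point is `f + a α + b β`, all other values depend on one of `a`, `b` only, and bilinear sums with
`Λ - Λ_z` are small by the bounds of Vinogradov and of Siegel and Walfisz for exponential sums over primes. So the
correlations of up to `2 d_j + 1` values of `Λ` are those of the sieve model, and these are computed by the fundamental
lemma of the sieve.
-/

namespace Pool.Agent.Results.MP_51e72e_nt.CompositionSystems

open Finset Polynomial

/-- The polynomial `P + a 0 + a 1 X + ⋯ + a d X ^ d`. -/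
noncomputable def poly {d : ℕ} (P : ℤ[X]) (a : Fin (d + 1) → ℤ) : ℤ[X] := P + ∑ i, C (a i) * X ^ (i : ℕ)

variable {r : ℕ}

/-- `π_F(x)` for the system `F` of the polynomials `f j ∘ g` (`j < r`, `g ∈ G j`): the number of the `1 ≤ n ≤ x` such
that the absolute values of all of them at `n` are primes. -/
noncomputable def count (f : Fin r → ℤ[X]) (G : Fin r → Finset ℤ[X]) (x : ℕ) : ℕ :=
  {n : ℕ | 1 ≤ n ∧ n ≤ x ∧ ∀ j, ∀ g ∈ G j, (((f j).comp g).eval (n : ℤ)).natAbs.Prime}.ncard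

/-- `ω_F(p)`: the number of the residue classes `n` modulo `p` for which `p` divides the product of all the values at `n`. -/
noncomputable def omega (f : Fin r → ℤ[X]) (G : Fin r → Finset ℤ[X]) (p : ℕ) : ℕ :=
  {n : ℕ | n < p ∧ (p : ℤ) ∣ ∏ j, ∏ g ∈ G j, ((f j).comp g).eval (n : ℤ)}.ncard

/-- `k`, the number of the polynomials of the system. -/
def size (G : Fin r → Finset ℤ[X]) : ℕ := ∑ j, (G j).card

/-- The Euler product `C_F`, over the primes up to `z`. -/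
noncomputable def constant (f : Fin r → ℤ[X]) (G : Fin r → Finset ℤ[X]) (z : ℕ) : ℝ :=
  ∏ p ∈ (Icc 1 z).filter Nat.Prime, (1 - (omega f G p : ℝ) / p) / (1 - 1 / (p : ℝ)) ^ size G

/-- `x / ∏ log |f(x)|`, the product over the polynomials of the system. -/
noncomputable def scale (f : Fin r → ℤ[X]) (G : Fin r → Finset ℤ[X]) (x : ℕ) : ℝ :=
  x / ∏ j, ∏ g ∈ G j, Real.log |((((f j).comp g).eval (x : ℤ) : ℤ) : ℝ)|

/-- The formula of the quantitative Hypothesis H with relative error `ε`, for all `x₀ ≤ x ≤ X`, the product `C_F` being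
taken over the primes up to any `z` with `x₀ ^ ε ≤ z ≤ X`. -/
def Good (X ε x₀ : ℝ) (f : Fin r → ℤ[X]) (G : Fin r → Finset ℤ[X]) : Prop :=
  ∀ x : ℕ, x₀ ≤ x → (x : ℝ) ≤ X → ∀ z : ℕ, x₀ ^ ε ≤ z → (z : ℝ) ≤ X →
    |(count f G x : ℝ) - constant f G z * scale f G x| ≤ ε * (constant f G z * scale f G x)

open Pool.Agent.T9h23.Cor Pool.Agent.T9h23.BH Pool.Agent.H373R2.T7

lemma count_eq {d : Fin r → ℕ} (P : Fin r → ℤ[X]) (G : Fin r → Finset ℤ[X]) (a : (j : Fin r) → Fin (d j + 1) → ℤ) (x : ℕ) :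
    count (fun j => poly (P j) (a j)) G x = pc G P a x := by
  classical
  unfold count pc
  rw [← Set.ncard_coe_finset]
  congr 1
  ext n
  simp only [Set.mem_ofPred_eq, coe_filter, mem_Icc, and_assoc]
  rfl

lemma omega_eq {d : Fin r → ℕ} (P : Fin r → ℤ[X]) (G : Fin r → Finset ℤ[X]) (a : (j : Fin r) → Fin (d j + 1) → ℤ) (p : ℕ) :
    omega (fun j => poly (P j) (a j)) G p = om (qq G P a) p := by
  classical
  unfold omega om
  rw [← Set.ncard_coe_finset]
  congr 1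
  ext n
  simp only [Set.mem_ofPred_eq, coe_filter, mem_range]
  unfold qq
  rw [eval_prod]
  simp only [eval_prod]
  rfl

lemma constant_eq {d : Fin r → ℕ} (P : Fin r → ℤ[X]) (G : Fin r → Finset ℤ[X]) (a : (j : Fin r) → Fin (d j + 1) → ℤ) (z : ℕ) :
    constant (fun j => poly (P j) (a j)) G z = Pool.Agent.T9h23.BH.CC (qq G P a) (kk G) z := by
  unfold constant Pool.Agent.T9h23.BH.CC Dn Vz
  rw [← prod_inv_distrib, ← prod_pow, ← prod_mul_distrib]
  unfold pz
  refine prod_congr rfl fun p _ => ?_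
  rw [omega_eq, div_eq_mul_inv, inv_pow]
  rfl

/-- Let `d_j ≥ 1` (`j < r`), `D` and `ε > 0`. There is `c > 0` such that for every `A`, every large `H`, all polynomials
`P_j` of degree at most `D` with coefficients at most `H (log H) ^ A`, all sets `G_j` of at most `d_j` polynomials of
degrees between `1` and `D` with coefficients at most `(log H) ^ A`, and every `x₀ ≥ (log H) ^ (k + ε)`, where
`k = ∑ |G_j|`: the number of the integers `a_{j,i}` (`j < r`, `0 ≤ i ≤ d_j`) with `|a_{j,i}| ≤ H` for which the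
conclusion fails for `f_j = P_j + ∑ a_{j,i} X ^ i` is at most `∏ (2 H + 1) ^ (d_j + 1) / x₀ ^ c`. -/
theorem result (r D : ℕ) (d : Fin r → ℕ) (hd : ∀ j, 1 ≤ d j) (ε : ℝ) (hε : 0 < ε) :
    ∃ c : ℝ, 0 < c ∧ ∀ A : ℕ, ∃ H₀ : ℕ, ∀ H : ℕ, H₀ ≤ H → ∀ P : Fin r → ℤ[X], (∀ j, (P j).natDegree ≤ D) →
    (∀ j i, |((P j).coeff i : ℝ)| ≤ H * Real.log H ^ A) → ∀ G : Fin r → Finset ℤ[X], (∀ j, (G j).card ≤ d j) →
    (∀ j, ∀ g ∈ G j, 1 ≤ g.natDegree ∧ g.natDegree ≤ D ∧ ∀ i, |(g.coeff i : ℝ)| ≤ Real.log H ^ A) →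
    ∀ x₀ : ℝ, Real.log H ^ ((size G : ℝ) + ε) ≤ x₀ →
    ({a : (j : Fin r) → Fin (d j + 1) → ℤ | (∀ j i, |a j i| ≤ H) ∧
      ¬ Good (Real.log H ^ A) ε x₀ (fun j => poly (P j) (a j)) G}.ncard : ℝ) ≤
      (∏ j, (2 * (H : ℝ) + 1) ^ (d j + 1)) / x₀ ^ c := by
  classical
  obtain ⟨ε1, hε1⟩ : ∃ ε1, ε1 = min (ε / 4) (1 / 4) := ⟨_, rfl⟩
  have hε10 : 0 < ε1 := by rw [hε1]; positivity
  have hε1a : ε1 ≤ 1 / 4 := by rw [hε1]; exact min_le_right _ _
  have hε1b : 4 * ε1 ≤ ε := by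
    have : ε1 ≤ ε / 4 := by rw [hε1]; exact min_le_left _ _
    linarith
  obtain ⟨c, hc, hfin⟩ := fin r d D hd ε1 hε10
  refine ⟨c, hc, fun A => ?_⟩
  obtain ⟨H0, h0⟩ := hfin A
  obtain ⟨n1, h1⟩ := ev_L' 1
  refine ⟨max H0 n1, fun H hH P hP1 hP2 G hG1 hG2 x0 hx0 => ?_⟩
  have hL1 := h1 H ((le_max_right _ _).trans hH)
  have hL0 : 0 < Real.log H := by linarith
  have hsz : size G = kk G := rfl
  rw [hsz] at hx0
  have hx0' : Real.log H ^ ((kk G : ℝ) + ε1) ≤ x0 :=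
    (Real.rpow_le_rpow_of_exponent_le hL1 (by linarith)).trans hx0
  have hx01 : 1 ≤ x0 := (Real.one_le_rpow hL1 (by positivity)).trans hx0'
  have hmain := h0 H ((le_max_left _ _).trans hH) P G ⟨hG1, fun j g hg => ⟨(hG2 j g hg).1, (hG2 j g hg).2.1⟩⟩
    ⟨hP1, hP2, fun j g hg i => (hG2 j g hg).2.2 i⟩ x0 hx0'
  refine le_trans (Nat.cast_le.2 ?_) hmain
  rw [← Set.ncard_coe_finset]
  apply Set.ncard_le_ncard _ (finite_toSet _)
  rintro a ⟨ha1, ha2⟩
  rw [mem_coe, mem_filter]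
  refine ⟨?_, fun hC => ha2 ?_⟩
  · unfold Om
    rw [Fintype.mem_piFinset]
    intro j
    rw [mem_Box]
    exact ha1 j
  · intro x hx1 hx2 z hz1 hz2
    have hz1' : x0 ^ ε1 ≤ z := (Real.rpow_le_rpow_of_exponent_le hx01 (by linarith)).trans hz1
    obtain ⟨h2, h3⟩ := hC x hx1 hx2 z hz1' hz2
    rw [count_eq, constant_eq]
    unfold scale
    obtain ⟨Q, hQ⟩ : ∃ Q : ℝ, Q = ∏ j, ∏ g ∈ G j, Real.log |((((hpol (P j) (a j)).comp g).eval (x : ℤ) : ℤ) : ℝ)| := ⟨_, rfl⟩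
    have hQ' : ∏ j, ∏ g ∈ G j, Real.log |((((poly (P j) (a j)).comp g).eval (x : ℤ) : ℤ) : ℝ)| = Q := hQ.symm
    rw [← hQ] at h3
    rw [hQ']
    obtain ⟨K, hK⟩ : ∃ K : ℝ, K = Real.log H ^ kk G := ⟨_, rfl⟩
    have hK0 : 0 < K := by rw [hK]; positivity
    rw [← hK] at h2 h3
    have hC0 := CC_nonneg (qq G P a) (kk G) z
    obtain ⟨W, hW⟩ : ∃ W : ℝ, W = Pool.Agent.T9h23.BH.CC (qq G P a) (kk G) z := ⟨_, rfl⟩
    rw [← hW] at h2 hC0 ⊢
    rw [abs_le] at h3
    have hQ0 : 0 < Q := by nlinarith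
    have hx : (0 : ℝ) < x := by linarith
    -- `x / K` and `x / Q`
    obtain ⟨u, hu⟩ : ∃ u : ℝ, u = x / Q := ⟨_, rfl⟩
    have hu0 : 0 < u := by rw [hu]; positivity
    have hxu : (x : ℝ) / K = u * (Q / K) := by rw [hu]; field_simp
    have hq1 : Q / K ≤ 1 + ε1 := by rw [div_le_iff₀ hK0]; linarith [h3.2]
    have hq2 : 1 - ε1 ≤ Q / K := by rw [le_div_iff₀ hK0]; linarith [h3.1]
    rw [← hu]
    obtain ⟨v, hv⟩ : ∃ v : ℝ, v = x / K := ⟨_, rfl⟩
    rw [← hv] at h2 hxu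
    have hv1 : v ≤ (1 + ε1) * u := by rw [hxu]; nlinarith
    have hv2 : (1 - ε1) * u ≤ v := by rw [hxu]; nlinarith
    have hWv1 : W * v ≤ (1 + ε1) * (W * u) := by
      calc W * v ≤ W * ((1 + ε1) * u) := by gcongr
        _ = _ := by ring
    have hWv2 : (1 - ε1) * (W * u) ≤ W * v := by
      calc (1 - ε1) * (W * u) = W * ((1 - ε1) * u) := by ring
        _ ≤ _ := by gcongr
    have hWu : 0 ≤ W * u := by positivity
    have h5 : ε1 * (W * v) ≤ ε1 * ((1 + ε1) * (W * u)) := by gcongr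
    have h6 : ε1 * (ε1 * (W * u)) ≤ 1 / 4 * (ε1 * (W * u)) := by gcongr
    have h7 : 0 ≤ ε1 * (W * u) := by positivity
    have h8 : 4 * ε1 * (W * u) ≤ ε * (W * u) := by gcongr
    rw [abs_le] at h2 ⊢
    constructor <;> nlinarith [h2.1, h2.2]

end Pool.Agent.Results.MP_51e72e_nt.CompositionSystems
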