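import Mathlib
import Pool.Agent.T9h23.PS.P6
import Pool.Agent.T9h23.PS.P7

set_option autoImplicit false

/-!
# The prime values of almost all polynomials in short windows: moments and Poisson distribution

Let `f = P + a_0 + a_1 X + ⋯ + a_d X ^ d`, where `P` is a fixed polynomial and the `a_i` are independent and uniform in
`[-H, H]`. The average distance of the `t` for which `|f(t)|` is a prime is `log H / C_f`. Let `N_W(n)` be the number of
those in the window `(n, n + W]` of length `W ≍ log H`. The theorem of Gallagher (1976) says that the prime `k`-tuplets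
conjecture implies that the number of the primes in such windows has a Poisson distribution. Here it is proved, without
a hypothesis, that for all but a proportion `(log H) ^ (-c)` of the `f` the first `d` binomial moments of `N_W(n)`,
`1 ≤ n ≤ x`, are those of the Poisson distribution with mean `μ = W C_f / log H`, uniformly in
`(log H) ^ (1 + ε) ≤ x ≤ (log H) ^ A` and in `W`, and so the distribution is the Poisson distribution, up to an error
`O(μ ^ d / (m! (d - m)!))`.

Proof (`Pool/Agent/T9h23`): the second moment over `f` of the sum over all `j`-subsets `T` of all windows of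
`∏ Λ(f(t)) - ∏ Λ_z(f(t))`, by the correlations of up to `2 d` values of `Λ` at the values of `f`; the fundamental lemma
in each window for the sieve model; Bonferroni's inequalities.
-/

namespace Pool.Agent.Results.MP_51e72e_nt.PoissonWindows

open Finset Polynomial

/-- The polynomial `P + a 0 + a 1 X + ⋯ + a d X ^ d`. -/
noncomputable def poly {d : ℕ} (P : ℤ[X]) (a : Fin (d + 1) → ℤ) : ℤ[X] := P + ∑ i, C (a i) * X ^ (i : ℕ)

/-- `N_W(n)`: the number of the `t` in `(n, n + W]` such that `|f(t)|` is a prime. -/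
noncomputable def hits (f : ℤ[X]) (W n : ℕ) : ℕ := {t : ℕ | n < t ∧ t ≤ n + W ∧ (f.eval (t : ℤ)).natAbs.Prime}.ncard

/-- The number of the `1 ≤ n ≤ x` with `N_W(n) = m`. -/
noncomputable def freq (f : ℤ[X]) (W m x : ℕ) : ℕ := {n : ℕ | 1 ≤ n ∧ n ≤ x ∧ hits f W n = m}.ncard

/-- The sum of the binomial coefficients `C(N_W(n), j)` over `1 ≤ n ≤ x`. -/
noncomputable def moment (f : ℤ[X]) (W j x : ℕ) : ℕ := ∑ n ∈ Icc 1 x, (hits f W n).choose j

/-- `ω_f(p)`: the number of the zeros of `f` modulo `p`. -/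
noncomputable def omega (f : ℤ[X]) (p : ℕ) : ℕ := {n : ℕ | n < p ∧ (p : ℤ) ∣ f.eval (n : ℤ)}.ncard

/-- The Euler product `C_f`, over the primes up to `z`. -/
noncomputable def constant (f : ℤ[X]) (z : ℕ) : ℝ :=
  ∏ p ∈ (Icc 1 z).filter Nat.Prime, (1 - (omega f p : ℝ) / p) / (1 - 1 / (p : ℝ))

/-- `μ`, the expected number of the prime values in a window of length `W`. -/
noncomputable def mean (f : ℤ[X]) (H W z : ℕ) : ℝ := W * constant f z / Real.log H

/-- For all `x` and `z` up to `(log H) ^ A`, `x ≥ (log H) ^ (1 + ε)`, `z ≥ (log H) ^ ε`, and all windows of length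
`W` between `lam1 log H` and `lam2 log H`: the first `d` binomial moments and the distribution of `N_W`. -/
def Good (H A d : ℕ) (ε lam1 lam2 : ℝ) (f : ℤ[X]) : Prop :=
  ∀ x W z : ℕ, Real.log H ^ (1 + ε) ≤ x → (x : ℝ) ≤ Real.log H ^ A → lam1 * Real.log H ≤ W → (W : ℝ) ≤ lam2 * Real.log H →
    Real.log H ^ ε ≤ z → (z : ℝ) ≤ Real.log H ^ A →
    (∀ j ≤ d, |(moment f W j x : ℝ) - x * (mean f H W z ^ j / (j.factorial : ℝ))| ≤
      ε * (x * (mean f H W z ^ j / (j.factorial : ℝ)))) ∧
    (∀ m ≤ d, |(freq f W m x : ℝ) - x * (Real.exp (-mean f H W z) * mean f H W z ^ m / (m.factorial : ℝ))| ≤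
      x * ((mean f H W z ^ m / (m.factorial : ℝ)) *
        ((2 + ε) * (mean f H W z ^ (d - m) / ((d - m).factorial : ℝ)) + ε * Real.exp (mean f H W z))))

open Pool.Agent.T9h23.Cor Pool.Agent.T9h23.BH Pool.Agent.T9h23.PS Pool.Agent.H373R2.T7

lemma hits_eq {d : ℕ} (P : ℤ[X]) (a : Fin (d + 1) → ℤ) (W n : ℕ) : hits (poly P a) W n = NW (hpol P a) W n := by
  classical
  unfold hits NW
  rw [← Set.ncard_coe_finset]
  congr 1
  ext t
  simp only [Set.mem_ofPred_eq, coe_filter, mem_Ioc, and_assoc]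
  rfl

lemma freq_eq {d : ℕ} (P : ℤ[X]) (a : Fin (d + 1) → ℤ) (W m x : ℕ) :
    freq (poly P a) W m x = ((Icc 1 x).filter (fun n => NW (hpol P a) W n = m)).card := by
  classical
  unfold freq
  rw [← Set.ncard_coe_finset]
  congr 1
  ext t
  simp only [Set.mem_ofPred_eq, coe_filter, mem_Icc, and_assoc, hits_eq]

lemma moment_eq {d : ℕ} (P : ℤ[X]) (a : Fin (d + 1) → ℤ) (W j x : ℕ) : moment (poly P a) W j x = AM (hpol P a) W j x := by
  unfold moment AM
  simp only [hits_eq]

lemma omega_eq {d : ℕ} (P : ℤ[X]) (a : Fin (d + 1) → ℤ) (p : ℕ) : omega (poly P a) p = om (hpol P a) p := by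
  classical
  unfold omega om
  rw [← Set.ncard_coe_finset]
  congr 1
  ext n
  simp only [Set.mem_ofPred_eq, coe_filter, mem_range]
  rfl

lemma constant_eq {d : ℕ} (P : ℤ[X]) (a : Fin (d + 1) → ℤ) (z : ℕ) :
    constant (poly P a) z = Pool.Agent.T9h23.BH.CC (hpol P a) 1 z := by
  unfold constant Pool.Agent.T9h23.BH.CC Dn Vz
  rw [pow_one, ← prod_inv_distrib, ← prod_mul_distrib]
  unfold pz
  refine prod_congr rfl fun p _ => ?_
  rw [omega_eq, div_eq_mul_inv]

/-- Let `d ≥ 1`, `D`, `ε > 0` and `0 < lam1`, `lam2`. There is `c > 0` such that for every `A`, every large `H` and every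
polynomial `P` of degree at most `D` with coefficients at most `H (log H) ^ A`: the number of the integers `a_i`
(`0 ≤ i ≤ d`) with `|a_i| ≤ H` for which the conclusion fails for `f = P + ∑ a_i X ^ i` is at most
`(2 H + 1) ^ (d + 1) / (log H) ^ c`. -/
theorem result (d D : ℕ) (hd : 1 ≤ d) (ε lam1 lam2 : ℝ) (hε : 0 < ε) (hlam : 0 < lam1) :
    ∃ c : ℝ, 0 < c ∧ ∀ A : ℕ, ∃ H₀ : ℕ, ∀ H : ℕ, H₀ ≤ H → ∀ P : ℤ[X], P.natDegree ≤ D →
    (∀ i, |(P.coeff i : ℝ)| ≤ H * Real.log H ^ A) →
    ({a : Fin (d + 1) → ℤ | (∀ i, |a i| ≤ H) ∧ ¬ Good H A d ε lam1 lam2 (poly P a)}.ncard : ℝ) ≤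
      (2 * (H : ℝ) + 1) ^ (d + 1) / Real.log H ^ c := by
  classical
  obtain ⟨c, hc, hfin⟩ := pmom_aux d (D + 1) hd (by omega) ε lam1 lam2 hε hlam
  refine ⟨c, hc, fun A => ?_⟩
  obtain ⟨H0, h0⟩ := hfin (A + 1) (by omega)
  obtain ⟨n1, h1⟩ := ev_L' 1
  refine ⟨max H0 n1, fun H hH P hP1 hP2 => ?_⟩
  have hL1 := h1 H ((le_max_right _ _).trans hH)
  have hL0 : 0 < Real.log H := by linarith
  have hpow : Real.log H ^ A ≤ Real.log H ^ (A + 1) := pow_le_pow_right₀ hL1 (by omega)
  have hmain := h0 H ((le_max_left _ _).trans hH) P (by omega) (fun i => (hP2 i).trans (by gcongr))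
  have hNN : NN (D1 d) H = (2 * (H : ℝ) + 1) ^ (d + 1) := by
    unfold NN D1
    rw [Fin.prod_univ_one]
  rw [hNN] at hmain
  refine le_trans (Nat.cast_le.2 ?_) hmain
  rw [← Set.ncard_coe_finset]
  apply Set.ncard_le_ncard_of_injOn (fun (a : Fin (d + 1) → ℤ) => (fun _ => a : (j : Fin 1) → (Fin (D1 d j + 1) → ℤ))) _ _ (finite_toSet _)
  · rintro a ⟨ha1, ha2⟩
    refine mem_coe.2 (mem_filter.2 ⟨?_, fun hC => ha2 ?_⟩)
    · unfold Om
      refine Fintype.mem_piFinset.2 fun j => ?_
      exact mem_Box.2 ha1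
    · have hC' : PMom H (A + 1) d ε lam1 lam2 (hpol P a) := hC
      intro x W z hx1 hx2 hW1 hW2 hz1 hz2
      have h2 := hC' x W z hx1 (hx2.trans hpow) hW1 hW2 hz1 (hz2.trans hpow)
      have hCz0 := CC_nonneg (hpol P a) 1 z
      obtain ⟨μ, hμ⟩ : ∃ μ : ℝ, μ = W * Pool.Agent.T9h23.BH.CC (hpol P a) 1 z / Real.log H := ⟨_, rfl⟩
      have hμ0 : 0 ≤ μ := by rw [hμ]; positivity
      have hmean : mean (poly P a) H W z = μ := by
        unfold mean
        rw [constant_eq, hμ]
      rw [hmean]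
      have hmom : ∀ j ≤ d, |((∑ n ∈ Icc 1 x, (NW (hpol P a) W n).choose j : ℕ) : ℝ) - x * (μ ^ j / (j.factorial : ℝ))| ≤
          ε * (x * (μ ^ j / (j.factorial : ℝ))) := by
        intro j hj
        have h3 := h2 j hj
        have hLj : 0 < Real.log H ^ j := by positivity
        have e1 : (W : ℝ) * Pool.Agent.T9h23.BH.CC (hpol P a) 1 z = Real.log H * μ := by
          rw [hμ]
          field_simp
        rw [e1] at h3
        have e2 : (x : ℝ) * ((Real.log H * μ) ^ j / (j.factorial : ℝ)) = Real.log H ^ j * (x * (μ ^ j / (j.factorial : ℝ))) := by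
          rw [mul_pow]; ring
        rw [e2, ← mul_sub, abs_mul, abs_of_pos hLj] at h3
        have e3 : ε * (Real.log H ^ j * (x * (μ ^ j / (j.factorial : ℝ)))) = Real.log H ^ j * (ε * (x * (μ ^ j / (j.factorial : ℝ)))) := by
          ring
        rw [e3] at h3
        exact le_of_mul_le_mul_left h3 hLj
      refine ⟨fun j hj => ?_, fun m hm => ?_⟩
      · rw [moment_eq]
        exact hmom j hj
      · rw [freq_eq]
        exact pdist x d m (fun n => NW (hpol P a) W n) hm μ ε hμ0 hε.le hmom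
  · intro a _ b _ h
    exact congrFun h (0 : Fin 1)

end Pool.Agent.Results.MP_51e72e_nt.PoissonWindows
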