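import Pool.Agent.T9h57.SB.Few

set_option autoImplicit false

/-!
# The quantitative Hypothesis H for quadratic polynomials: almost all constant terms in EVERY residue class of all
# moduli up to `X ^ (1 / 2 - ρ)` but the multiples of few integers of large radical

Fix integers `a > 0` and `b`, and let `F = {a n² + b n + c}`. There is a set `D` of at most `(log X) ^ e` integers, the
RADICALS of which are larger than any given power of `log X`, such that for every modulus `q ≤ X ^ (1 / 2 - ρ)` with at
most `(log X) ^ T` divisors which is not divisible by a member of `D` and for EVERY residue class `c₀` modulo `q`, all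
but at most `X / (q (log X) ^ A)` of the integers `1 ≤ c ≤ X`, `c ≡ c₀ (mod q)`, satisfy: the Euler product `C_F`
converges, and for all `y ≤ √X` the number `π_F(y)` differs by at most `√X / (log X) ^ C` from the predicted
`C_F ∑_{n ≤ y} 1 / log f(n)`.

There is no condition on the greatest common divisor of `q` and the discriminant `b² - 4 a c₀`; for instance
`F = {n² + m q}` for almost all `m ≤ X / q`. In particular no modulus `q ≤ X ^ (1 / 2 - ρ)` with a radical
`∏_{p ∣ q} p ≤ (log X) ^ S` and at most `(log X) ^ T` divisors is exceptional, for example no power `q = r ^ k` of a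
bounded integer `r`: the constant terms may be divisible by an arbitrary power `r ^ k ≤ X ^ (1 / 2 - ρ)`.

Proof (`T9h57/PK`, `T9h57/GL`, `T9h57/SB`). For a character `χ` modulo `d` whose radical is at most a power of `log X`
the formula of Postnikov and the method of Vinogradov give a wide zero-free region, unless `χ` is real, and the
conductor of a real character is at most `8 rad d`. The primitive characters of conductors up to `X ^ (3 / 5)` for
which the sums over primes do not save a large power of `log X` are few (large sieve), and the conductors of the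
exceptions, divided by small factors, are the members of `D`; they have large radicals. For a modulus which is not
divisible by a member of `D` the mean squares over all characters are small near the fractions with small
denominators; this is inserted into the circle method inside the residue class (`R460/SB`). The Euler products are
treated as in `R460/SC` (a large sieve inequality over the squarefree kernels of `b² - 4 a c`).
-/

namespace Pool.Agent.Results.MP_51e72e_nt.QuadraticsLargeRadical

open Finset Filter Topology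

/-- The radical of `q`: the product of the primes dividing `q`. -/
def radical (q : ℕ) : ℕ := ∏ p ∈ q.primeFactors, p

/-- The quadratic polynomial `a n² + b n + c`. -/
def f (a b c : ℤ) (n : ℕ) : ℤ := a * (n : ℤ) ^ 2 + b * (n : ℤ) + c

/-- `ω_F(p)` for `F = {f}`: the number of the roots of `f` modulo `p`. -/
def omega (a b c : ℤ) (p : ℕ) : ℕ := ((range p).filter (fun n : ℕ => (p : ℤ) ∣ f a b c n)).card

/-- The Euler product `C_F` for `F = {f}`, over the primes up to `z`. -/
noncomputable def product (a b c : ℤ) (z : ℕ) : ℝ :=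
  ∏ p ∈ (Icc 1 z).filter Nat.Prime, (1 - (omega a b c p : ℝ) / p) / (1 - 1 / (p : ℝ))

/-- `CF` is the constant `C_F` for `F = {f}`: the product over all primes, in increasing order, converges to `CF`. -/
def IsConstant (a b c : ℤ) (CF : ℝ) : Prop := Tendsto (product a b c) atTop (𝓝 CF)

/-- `π_F(y)` for `F = {f}`: the number of the `n`, `1 ≤ n ≤ y`, for which `f(n)` is a prime. -/
def count (a b c : ℤ) (y : ℕ) : ℕ := ((Icc 1 y).filter (fun n : ℕ => (f a b c n).toNat.Prime)).card

/-- The conclusion for one constant term `c`: `π_F(y) = C_F ∑_{n ≤ y} 1 / log f(n)` up to `√X / (log X) ^ C` for all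
`y ≤ √X`, and if `F` has no fixed prime divisor, then `f(n)` is prime for some `n ≤ √X`. -/
def Good (a b : ℤ) (C X : ℕ) (c : ℤ) : Prop :=
  ((∀ p : ℕ, p.Prime → ∃ n : ℕ, ¬ (p : ℤ) ∣ f a b c n) →
    ∃ n : ℕ, 1 ≤ n ∧ n ^ 2 ≤ X ∧ (f a b c n).toNat.Prime) ∧
  ∃ CF : ℝ, IsConstant a b c CF ∧ ∀ y : ℕ, y ^ 2 ≤ X →
    |(count a b c y : ℝ) - CF * ∑ n ∈ Icc 1 y, 1 / Real.log ((f a b c n : ℤ) : ℝ)| ≤ Real.sqrt X / Real.log X ^ C

open Classical in
/-- The number of the integers `1 ≤ c ≤ X`, `c ≡ c₀ (mod q)`, for which the conclusion fails. -/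
noncomputable def exceptions (a b : ℤ) (C X q : ℕ) (c₀ : ℤ) : ℕ :=
  ((Icc 1 (X : ℤ)).filter (fun c : ℤ => c ≡ c₀ [ZMOD q] ∧ ¬ Good a b C X c)).card

/-- Let `a > 0` and `b` be integers, `ρ > 0`, and let `A`, `C`, `T` be given. There is `e` such that for all `S` and all
sufficiently large `X` there is a finite set `D` of at most `(log X) ^ e` integers, the radical of each of which is
larger than `(log X) ^ S`, with the following property. Let `1 ≤ q ≤ X ^ (1 / 2 - ρ)` be an integer with at most
`(log X) ^ T` divisors which is not divisible by a member of `D`. Then for EVERY integer `c₀` all but at most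
`X / (q (log X) ^ A)` of the integers `1 ≤ c ≤ X`, `c ≡ c₀ (mod q)`, satisfy `Good a b C X c`. -/
theorem result (a b : ℤ) (ha : 0 < a) (ρ : ℝ) (hρ : 0 < ρ) (A C T : ℕ) :
    ∃ e : ℕ, ∀ S : ℕ, ∃ X₀ : ℕ, ∀ X : ℕ, X₀ ≤ X → ∃ D : Finset ℕ, (D.card : ℝ) ≤ Real.log X ^ e ∧
      (∀ d ∈ D, Real.log X ^ S < (radical d : ℝ)) ∧
      ∀ q : ℕ, 1 ≤ q → (q : ℝ) ≤ (X : ℝ) ^ (1 / 2 - ρ) → (q.divisors.card : ℝ) ≤ Real.log X ^ T →
        (∀ d ∈ D, ¬ d ∣ q) → ∀ c₀ : ℤ, (exceptions a b C X q c₀ : ℝ) ≤ X / (q * Real.log X ^ A) := by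
  classical
  obtain ⟨e, h0⟩ := Pool.Agent.T9h57.SB.sbf_all (b := b) ha ρ hρ A C T
  refine ⟨e, fun S => ?_⟩
  obtain ⟨X₀, h0⟩ := h0 S
  refine ⟨X₀, fun X hX => ?_⟩
  obtain ⟨D, hD1, hD2, h1⟩ := h0 X hX
  refine ⟨D, hD1, hD2, fun q hq1 hqX hτ hqD c₀ => ?_⟩
  have h2 := h1 q hq1 hqX hτ hqD c₀
  refine le_trans (le_of_eq ?_) h2
  unfold exceptions
  have hf : ∀ (c : ℤ) (t : ℕ), Pool.Agent.R460.SB.fv (-a) (-b) c t = f a b c t := by
    intro c t
    unfold Pool.Agent.R460.SB.fv f
    ring
  have hr : ∀ (c : ℤ) (p : ℕ), Pool.Agent.H373R2.T7.nuB (Pool.Agent.R460.SB.QS (-a) (-b) c) p = omega a b c p := by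
    intro c p
    unfold omega Pool.Agent.H373R2.T7.nuB Pool.Agent.R460.SB.QS
    have e : ∀ m : ℕ, ((p : ℤ) ∣ c - (-a * (m : ℤ) ^ 2 + -b * (m : ℤ))) ↔ (p : ℤ) ∣ f a b c m := by
      intro m
      have e1 := hf c m
      unfold Pool.Agent.R460.SB.fv at e1
      rw [e1]
    congr 1
    ext m
    simp only [mem_filter, e]
  have hs : ∀ c : ℤ, (fun z : ℕ => Pool.Agent.R460.SB.Sz (-a) (-b) c z) = product a b c := by
    intro c
    funext z
    rw [Pool.Agent.R460.SB.Sz_prod]
    unfold product Pool.Agent.H373R2.T7.pz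
    refine prod_congr rfl fun p _ => ?_
    rw [hr]
  have hg : ∀ c : ℤ, Good a b C X c ↔ Pool.Agent.R460.SC.GoodT a b C X c := by
    intro c
    unfold Good Pool.Agent.R460.SC.GoodT count IsConstant
    simp only [hs, hf]
  congr 2
  ext n
  rw [mem_filter, mem_filter, hg]

end Pool.Agent.Results.MP_51e72e_nt.QuadraticsLargeRadical
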